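import Pool.Agent.H13.TD.Ind

namespace H13.TD2

open Finset Classical H13.TD

variable {V : Type} [Fintype V]

/-- the strict form of the number bound -/
def Bd' (k n : ℕ) : Prop := (∃ t : ℝ, 5 ≤ t ∧ (k : ℝ) + n / t + t < n + 1) ∨ 5 * k ≤ 4 * n

def Sol' (G : SimpleGraph V) (W : Finset V) : Prop :=
  ∃ (c : V → Bool) (I X : Finset V), (∀ v ∈ W, OKat G W c I X v) ∧
    Bd' (2 * I.card + 4 * X.card) W.card

/-- all vertices outside `I` see both colours outside `I` -/
def BipSol (G : SimpleGraph V) (W : Finset V) : Prop :=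
  ∃ (c : V → Bool) (I : Finset V),
    (∀ v ∈ W, v ∉ I → (∃ u ∈ W, u ∉ I ∧ G.Adj v u ∧ c u = true) ∧
      (∃ u ∈ W, u ∉ I ∧ G.Adj v u ∧ c u = false)) ∧
    (∀ v ∈ I, ∃ u ∈ W, u ∉ I ∧ G.Adj v u ∧ c u ≠ c v) ∧ (∃ v ∈ W, v ∉ I) ∧
    Bd (2 * I.card) W.card

lemma bd_of_bd' {k n : ℕ} (h : Bd' k n) : Bd k n := by
  rcases h with ⟨t, ht, h⟩ | h
  · exact Or.inl ⟨t, ht, h.le⟩
  · exact Or.inr h

lemma bd_step' {k n δ w k' n' : ℕ} (h : Bd k n) (hw : 5 * δ ≤ 4 * w) (hk : k' ≤ k + δ)
    (hn : n' = n + w) (hw1 : 1 ≤ w) : Bd' k' n' := by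
  rcases h with ⟨t, ht, h⟩ | h
  · have h2 : (5 : ℝ) * δ ≤ 4 * w := by exact_mod_cast hw
    have h3 : (k' : ℝ) ≤ k + δ := by exact_mod_cast hk
    subst hn
    rcases eq_or_lt_of_le ht with ht5 | ht5
    · right
      rw [← ht5] at h
      have : (5 : ℝ) * k' ≤ 4 * (n + w) := by
        have : (n : ℝ) / 5 * 5 = n := by field_simp
        linarith
      exact_mod_cast this
    · left
      refine ⟨t, ht, ?_⟩
      have hwp : (0 : ℝ) < w := by exact_mod_cast hw1
      have h1 : (w : ℝ) / t < w / 5 := by
        apply div_lt_div_of_pos_left hwp (by norm_num) ht5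
      push_cast
      rw [add_div]
      linarith
  · right; omega

lemma bd_final' {k n : ℕ} (h : Bd' k n) :
    (k : ℝ) < (n : ℝ) - 2 * Real.sqrt n + 1 ∨ 5 * k ≤ 4 * n := by
  rcases h with ⟨t, ht, h⟩ | h
  · left
    have hs : 0 ≤ Real.sqrt n := Real.sqrt_nonneg _
    have hn : Real.sqrt n * Real.sqrt n = n := Real.mul_self_sqrt (by positivity)
    have ht0 : 0 < t := by linarith
    have h1 : 2 * Real.sqrt n ≤ n / t + t := by
      rw [← sub_nonneg]
      have : (n : ℝ) / t + t - 2 * Real.sqrt n = (Real.sqrt n - t) ^ 2 / t := by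
        field_simp
        nlinarith
      rw [this]
      positivity
    linarith
  · exact Or.inr h

lemma sol_of_sol' {G : SimpleGraph V} {W : Finset V} (h : Sol' G W) : Sol G W := by
  obtain ⟨c, I, X, h1, h2⟩ := h
  exact ⟨c, I, X, h1, bd_of_bd' h2⟩

lemma sol_of_bip {G : SimpleGraph V} {W : Finset V} (h : BipSol G W) : Sol G W := by
  obtain ⟨c, I, h1, h2, h3, h4⟩ := h
  refine ⟨c, I, ∅, ?_, by simpa using h4⟩
  intro v hv
  by_cases hvI : v ∈ I
  · obtain ⟨u, hu, -, ha, hc⟩ := h2 v hvI
    exact ok_I hvI hu ha hc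
  · obtain ⟨⟨u, hu, -, ha, hc⟩, w, hw, -, hb, hd⟩ := h1 v hv hvI
    exact ok_two hu hw ha hb (by rw [hc, hd]; decide)

lemma sol_graph' {G G' : SimpleGraph V} {W : Finset V} (h : Sol' G' W) (hG : G' ≤ G) :
    Sol' G W := by
  obtain ⟨c, I, X, hok, hb⟩ := h
  exact ⟨c, I, X, fun v hv => ok_graph (hok v hv) hG, hb⟩

lemma bip_graph {G G' : SimpleGraph V} {W : Finset V} (h : BipSol G' W) (hG : G' ≤ G) :
    BipSol G W := by
  obtain ⟨c, I, h1, h2, h3, h4⟩ := h
  refine ⟨c, I, ?_, ?_, h3, h4⟩
  · intro v hv hvI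
    obtain ⟨⟨u, hu, hi, ha, hc⟩, w, hw, hj, hb, hd⟩ := h1 v hv hvI
    exact ⟨⟨u, hu, hi, hG ha, hc⟩, w, hw, hj, hG hb, hd⟩
  · intro v hv
    obtain ⟨u, hu, hi, ha, hc⟩ := h2 v hv
    exact ⟨u, hu, hi, hG ha, hc⟩

/-- Closing a path at a vertex with at least three neighbours. -/
lemma closeOne' (G : SimpleGraph V) (W : Finset V)
    (H : ∀ W' : Finset V, W'.card < W.card → Closed G W' → Sol G W')
    (hW : Closed G W) {p q x : V} (hp : p ∈ W) (hpn : nb G W p = {x, q}) (hxq : x ≠ q)
    (hq : (nb G W q).card = 2) (hx : 3 ≤ (nb G W x).card) : Sol' G W := by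
  have hqm : q ∈ nb G W p := by rw [hpn]; simp
  have hxm : x ∈ nb G W p := by rw [hpn]; simp
  have hqW := (mem_nb.1 hqm).1
  have hxW := (mem_nb.1 hxm).1
  have hpq : G.Adj p q := (mem_nb.1 hqm).2
  have hpx : G.Adj p x := (mem_nb.1 hxm).2
  have hpmq : p ∈ nb G W q := mem_nb.2 ⟨hp, hpq.symm⟩
  have hpmx : p ∈ nb G W x := mem_nb.2 ⟨hp, hpx.symm⟩
  have h1 : (nb G (W.erase p) q).card = 1 := by
    rw [nb_erase]; have := card_erase_add_one hpmq; omega
  obtain ⟨y, hy⟩ := card_eq_one.1 h1
  have hym : y ∈ nb G (W.erase p) q := by rw [hy]; simp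
  have hyE := (mem_nb.1 hym).1
  have hyp : y ≠ p := (mem_erase.1 hyE).1
  have hyW : y ∈ W := (mem_erase.1 hyE).2
  have hqy : G.Adj q y := (mem_nb.1 hym).2
  have hqE : q ∈ W.erase p := mem_erase.2 ⟨hpq.ne', hqW⟩
  have hcard : (W.erase p).card + 1 = W.card := card_erase_add_one hp
  have hd : ∀ w ∈ W.erase p, w ≠ q → 2 ≤ (nb G (W.erase p) w).card := by
    intro w hw hwq
    rw [nb_erase]
    by_cases hwx : w = x
    · subst hwx; have := card_erase_add_one hpmx; omega
    · have : p ∉ nb G W w := by
        intro h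
        have : w ∈ nb G W p := mem_nb.2 ⟨(mem_erase.1 hw).2, (mem_nb.1 h).2.symm⟩
        rw [hpn] at this
        simp at this
        tauto
      rw [erase_eq_of_notMem this]
      exact hW w (mem_erase.1 hw).2
  obtain ⟨c0, c1, I, X, hok, hh⟩ := oneTip G W.card H (W.erase p).card (W.erase p) rfl (by omega)
    q y hqE hy hd
  -- extension of a colouring
  have key : ∀ (c : V → Bool) (I' : Finset V), I ⊆ I' →
      (∀ w ∈ W.erase p, w ≠ q → OKat G (W.erase p) c I X w) →
      ∀ w ∈ W, w ≠ p → OKat G W (Function.update c p (!(c y))) I' X w := by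
    intro c I' hI hc w hw hwp
    have hwE : w ∈ W.erase p := mem_erase.2 ⟨hwp, hw⟩
    by_cases hwq : w = q
    · subst hwq
      refine ok_two (a := p) (b := y) hp hyW hpq.symm hqy ?_
      rw [Function.update_self, Function.update_of_ne hyp]
      simp
    · refine ok_mono (hc w hwE hwq) (erase_subset _ _) hwE ?_ hI (subset_refl _)
      intro z hz
      rw [Function.update_of_ne (mem_erase.1 hz).1]
  have hxp : x ≠ p := hpx.ne'
  have hqp : q ≠ p := hpq.ne'
  have good : ∀ c : V → Bool, (∀ w ∈ W.erase p, w ≠ q → OKat G (W.erase p) c I X w) →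
      c q ≠ c x → ∀ w ∈ W, OKat G W (Function.update c p (!(c y))) I X w := by
    intro c hc hne w hw
    by_cases hwp : w = p
    · subst hwp
      refine ok_two (a := q) (b := x) hqW hxW hpq hpx ?_
      rw [Function.update_of_ne hqp, Function.update_of_ne hxp]
      exact hne
    · exact key c I (subset_refl _) hc w hw hwp
  have hok0 : ∀ w ∈ W.erase p, w ≠ q → OKat G (W.erase p) c0 I X w :=
    fun w hw hwq => (hok w hw hwq).1
  have hok1 : ∀ w ∈ W.erase p, w ≠ q → OKat G (W.erase p) c1 I X w :=
    fun w hw hwq => (hok w hw hwq).2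
  rcases hh with ⟨ha, hb, m, hm, hbd⟩ | ⟨hdich, m, hm, hbd⟩
  · have hbd' : Bd' (2 * I.card + 4 * X.card) W.card :=
      bd_step' (δ := 0) (w := 2) hbd (by omega) (by omega) (by omega) (by omega)
    have hxx := ha x hxq
    by_cases h0 : c0 q = c0 x
    · refine ⟨_, I, X, good c1 hok1 ?_, hbd'⟩
      rw [← hxx, ← h0]; exact fun h => hb h.symm
    · exact ⟨_, I, X, good c0 hok0 h0, hbd'⟩
  · have hbd' : Bd' (2 * I.card + 4 * X.card) W.card :=
      bd_step' (δ := 0) (w := 3) hbd (by omega) (by omega) (by omega) (by omega)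
    by_cases h0 : c0 q = c0 x
    swap
    · exact ⟨_, I, X, good c0 hok0 h0, hbd'⟩
    by_cases h1 : c1 q = c1 x
    swap
    · exact ⟨_, I, X, good c1 hok1 h1, hbd'⟩
    have hcI : (insert p I).card ≤ I.card + 1 := card_insert_le _ _
    have hbd'' : Bd' (2 * (insert p I).card + 4 * X.card) W.card :=
      bd_step' (δ := 2) (w := 3) hbd (by omega) (by omega) (by omega) (by omega)
    have bad : ∀ c : V → Bool, (∀ w ∈ W.erase p, w ≠ q → OKat G (W.erase p) c I X w) →
        c q = c x → c y = c q →
        ∀ w ∈ W, OKat G W (Function.update c p (!(c y))) (insert p I) X w := by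
      intro c hc hqx hyq w hw
      by_cases hwp : w = p
      · subst hwp
        refine ok_I (a := q) (mem_insert_self _ _) hqW hpq ?_
        rw [Function.update_of_ne hqp, Function.update_self, hyq]
        simp
      · exact key c _ (subset_insert _ _) hc w hw hwp
    by_cases h2 : c0 y = c0 q
    · exact ⟨_, _, X, bad c0 hok0 h0 h2, hbd''⟩
    · refine ⟨_, _, X, bad c1 hok1 h1 ?_, hbd''⟩
      revert h2 hdich
      cases c0 y <;> cases c0 q <;> cases c1 y <;> cases c1 q <;> simp

/-- A component on three vertices or four vertices, or a longer cycle. -/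
lemma closeTwo' (G : SimpleGraph V) (W : Finset V)
    (H : ∀ W' : Finset V, W'.card < W.card → Closed G W' → Sol G W')
    (hW : Closed G W) (Z : Finset V) (hZ1 : ∀ w ∈ Z, (nb G W w).card ≤ 2)
    (hZ2 : ∀ w ∈ Z, ∀ z ∈ nb G W w, z ∈ Z) {p : V} (hp : p ∈ W) (hpZ : p ∈ Z) : Sol' G W := by
  have two : ∀ w ∈ W, w ∈ Z → (nb G W w).card = 2 := fun w hw hz => le_antisymm (hZ1 w hz) (hW w hw)
  obtain ⟨x, q, hxq, hpn⟩ := card_eq_two.1 (two p hp hpZ)
  have hqm : q ∈ nb G W p := by rw [hpn]; simp
  have hxm : x ∈ nb G W p := by rw [hpn]; simp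
  have hqW := (mem_nb.1 hqm).1
  have hxW := (mem_nb.1 hxm).1
  have hpq : G.Adj p q := (mem_nb.1 hqm).2
  have hpx : G.Adj p x := (mem_nb.1 hxm).2
  have hqZ := hZ2 p hpZ q hqm
  have hxZ := hZ2 p hpZ x hxm
  have hpmq : p ∈ nb G W q := mem_nb.2 ⟨hp, hpq.symm⟩
  have hpmx : p ∈ nb G W x := mem_nb.2 ⟨hp, hpx.symm⟩
  have hq2 := two q hqW hqZ
  have hx2 := two x hxW hxZ
  have hq1 : (nb G (W.erase p) q).card = 1 := by
    rw [nb_erase]; have := card_erase_add_one hpmq; omega
  have hx1 : (nb G (W.erase p) x).card = 1 := by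
    rw [nb_erase]; have := card_erase_add_one hpmx; omega
  obtain ⟨y, hy⟩ := card_eq_one.1 hq1
  obtain ⟨x', hx'⟩ := card_eq_one.1 hx1
  have hym : y ∈ nb G (W.erase p) q := by rw [hy]; simp
  have hx'm : x' ∈ nb G (W.erase p) x := by rw [hx']; simp
  have hyW : y ∈ W := (mem_erase.1 (mem_nb.1 hym).1).2
  have hyp : y ≠ p := (mem_erase.1 (mem_nb.1 hym).1).1
  have hqy : G.Adj q y := (mem_nb.1 hym).2
  have hx'W : x' ∈ W := (mem_erase.1 (mem_nb.1 hx'm).1).2
  have hx'p : x' ≠ p := (mem_erase.1 (mem_nb.1 hx'm).1).1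
  have hxx' : G.Adj x x' := (mem_nb.1 hx'm).2
  have hqn : nb G W q = {p, y} := by
    rw [nb_erase] at hy
    rw [← insert_erase hpmq, hy]
  have hxn : nb G W x = {p, x'} := by
    rw [nb_erase] at hx'
    rw [← insert_erase hpmx, hx']
  have hxp : x ≠ p := hpx.ne'
  have hqp : q ≠ p := hpq.ne'
  by_cases hA : y = x
  · -- triangle
    subst hA
    have hx'q : x' = q := by
      have : q ∈ nb G W y := mem_nb.2 ⟨hqW, hqy.symm⟩
      rw [hxn] at this
      simp only [mem_insert, mem_singleton] at this
      rcases this with h | h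
      · exact absurd h hqp
      · exact h.symm
    rw [hx'q] at hxn
    have hS : ∀ s ∈ ({p, q, y} : Finset V), nb G W s ⊆ {p, q, y} := by
      intro s hs
      simp only [mem_insert, mem_singleton] at hs
      rcases hs with rfl | rfl | rfl
      · rw [hpn]; intro z hz; simp only [mem_insert, mem_singleton] at hz ⊢; tauto
      · rw [hqn]; intro z hz; simp only [mem_insert, mem_singleton] at hz ⊢; tauto
      · rw [hxn]; intro z hz; simp only [mem_insert, mem_singleton] at hz ⊢; tauto
    have hSW : ({p, q, y} : Finset V) ⊆ W := by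
      intro s hs
      simp only [mem_insert, mem_singleton] at hs
      rcases hs with rfl | rfl | rfl <;> assumption
    have hnb := comp_nb hS hSW
    have hS3 : ({p, q, y} : Finset V).card = 3 := by
      rw [card_eq_three]; exact ⟨p, q, y, hqp.symm, hxp.symm, hxq.symm, rfl⟩
    have hc3 : (W \ {p, q, y}).card + 3 = W.card := by
      have h1 := card_sdiff_add_card_eq_card hSW
      omega
    have hcl : Closed G (W \ {p, q, y}) := by
      intro w hw
      rw [hnb w hw]
      exact hW w (mem_sdiff.1 hw).1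
    obtain ⟨c, I, X, hok, hb⟩ := H (W \ {p, q, y}) (by omega) hcl
    refine ⟨fun z => if z = p then true else if z = q then true else if z = y then false else c z,
      insert y I, X, ?_, ?_⟩
    · intro w hw
      by_cases hwS : w ∈ ({p, q, y} : Finset V)
      · simp only [mem_insert, mem_singleton] at hwS
        rcases hwS with rfl | rfl | rfl
        · exact ok_two (a := q) (b := y) hqW hxW hpq hpx (by simp [hqp, hxp, hxq])
        · exact ok_two (a := p) (b := y) hp hxW hpq.symm hqy (by simp [hxp, hxq])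
        · exact ok_I (a := p) (mem_insert_self _ _) hp hpx.symm (by simp [hxp, hxq])
      · have hwD : w ∈ W \ {p, q, y} := mem_sdiff.2 ⟨hw, hwS⟩
        refine ok_mono (hok w hwD) sdiff_subset hwD ?_ (subset_insert _ _) (subset_refl _)
        intro z hz
        have hz' := (mem_sdiff.1 hz).2
        simp only [mem_insert, mem_singleton, not_or] at hz'
        simp [hz'.1, hz'.2.1, hz'.2.2]
    · have hcI : (insert y I).card ≤ I.card + 1 := card_insert_le _ _
      exact bd_step' (δ := 2) (w := 3) hb (by omega) (by omega) (by omega) (by omega)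
  by_cases hB : G.Adj y x
  · -- 4-cycle
    have hyZ : y ∈ Z := hZ2 q hqZ y (by rw [hqn]; simp)
    have hyn : nb G W y = {q, x} := by
      symm
      apply eq_of_subset_of_card_le
      · intro z hz
        simp only [mem_insert, mem_singleton] at hz
        rcases hz with rfl | rfl
        · exact mem_nb.2 ⟨hqW, hqy.symm⟩
        · exact mem_nb.2 ⟨hxW, hB⟩
      · rw [card_pair hxq.symm]; exact hZ1 y hyZ
    have hx'y : x' = y := by
      have : y ∈ nb G W x := mem_nb.2 ⟨hyW, hB.symm⟩
      rw [hxn] at this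
      simp only [mem_insert, mem_singleton] at this
      rcases this with h | h
      · exact absurd h hyp
      · exact h.symm
    rw [hx'y] at hxn
    have hqy' : q ≠ y := hqy.ne
    have hS : ∀ s ∈ ({p, q, y, x} : Finset V), nb G W s ⊆ {p, q, y, x} := by
      intro s hs
      simp only [mem_insert, mem_singleton] at hs
      rcases hs with rfl | rfl | rfl | rfl
      · rw [hpn]; intro z hz; simp only [mem_insert, mem_singleton] at hz ⊢; tauto
      · rw [hqn]; intro z hz; simp only [mem_insert, mem_singleton] at hz ⊢; tauto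
      · rw [hyn]; intro z hz; simp only [mem_insert, mem_singleton] at hz ⊢; tauto
      · rw [hxn]; intro z hz; simp only [mem_insert, mem_singleton] at hz ⊢; tauto
    have hSW : ({p, q, y, x} : Finset V) ⊆ W := by
      intro s hs
      simp only [mem_insert, mem_singleton] at hs
      rcases hs with rfl | rfl | rfl | rfl <;> assumption
    have hnb := comp_nb hS hSW
    have hc4 : (W \ {p, q, y, x}).card < W.card := by
      apply card_lt_card
      refine ⟨sdiff_subset, fun h => ?_⟩
      have := h hp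
      simp at this
    have hcl : Closed G (W \ {p, q, y, x}) := by
      intro w hw
      rw [hnb w hw]
      exact hW w (mem_sdiff.1 hw).1
    obtain ⟨c, I, X, hok, hb⟩ := H (W \ {p, q, y, x}) (by omega) hcl
    refine ⟨fun z => if z = p then true else if z = q then true else if z = x then false else
      if z = y then false else c z, I, X, ?_, ?_⟩
    · intro w hw
      by_cases hwS : w ∈ ({p, q, y, x} : Finset V)
      · simp only [mem_insert, mem_singleton] at hwS
        rcases hwS with rfl | rfl | rfl | rfl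
        · exact ok_two (a := q) (b := x) hqW hxW hpq hpx (by simp [hqp, hxp, hxq])
        · exact ok_two (a := p) (b := y) hp hyW hpq.symm hqy (by simp [hyp, hqy'.symm])
        · exact ok_two (a := q) (b := x) hqW hxW hqy.symm hB (by simp [hxp, hxq])
        · exact ok_two (a := p) (b := y) hp hyW hpx.symm hB.symm (by simp [hyp, hqy'.symm])
      · have hwD : w ∈ W \ {p, q, y, x} := mem_sdiff.2 ⟨hw, hwS⟩
        refine ok_mono (hok w hwD) sdiff_subset hwD ?_ (subset_refl _) (subset_refl _)
        intro z hz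
        have hz' := (mem_sdiff.1 hz).2
        simp only [mem_insert, mem_singleton, not_or] at hz'
        simp [hz'.1, hz'.2.1, hz'.2.2.1, hz'.2.2.2]
    · exact bd_step' (δ := 0) (w := W.card - (W \ {p, q, y, x}).card) hb (by omega) (by omega)
        (by omega) (by omega)
  -- a longer cycle
  have hcard : (W.erase p).card + 1 = W.card := card_erase_add_one hp
  have hqE : q ∈ W.erase p := mem_erase.2 ⟨hqp, hqW⟩
  have hxE : x ∈ W.erase p := mem_erase.2 ⟨hxp, hxW⟩
  have hsub : ∀ w, nb G (W.erase p) w ⊆ nb G W w := by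
    intro w; rw [nb_erase]; exact erase_subset _ _
  obtain ⟨c, I, X, hok, m, hb, -, -, hm⟩ := twoTip G W.card H Z (W.erase p).card (W.erase p) rfl
    (by omega) (fun w hw => (card_le_card (hsub w)).trans (hZ1 w hw))
    (fun w hw z hz => hZ2 w hw z (hsub w hz)) x q y hxE hqE hxq hqZ hy hx1
    (by
      intro w hw hwq hwx
      have : p ∉ nb G W w := by
        intro h
        have : w ∈ nb G W p := mem_nb.2 ⟨(mem_erase.1 hw).2, (mem_nb.1 h).2.symm⟩
        rw [hpn] at this
        simp at this
        tauto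
      rw [nb_erase, erase_eq_of_notMem this]
      exact hW w (mem_erase.1 hw).2)
  have hm' := hm hA hB
  have key : ∀ (P : Bool) (I' X' : Finset V), I ⊆ I' → X ⊆ X' →
      ∀ w ∈ W, w ≠ p → w ≠ q → w ≠ x → OKat G W (Function.update c p P) I' X' w := by
    intro P I' X' hI hX w hw hwp hwq hwx
    have hwE : w ∈ W.erase p := mem_erase.2 ⟨hwp, hw⟩
    refine ok_mono (hok w hwE hwq hwx) (erase_subset _ _) hwE ?_ hI hX
    intro z hz
    rw [Function.update_of_ne (mem_erase.1 hz).1]
  have fin : ∀ (P : Bool) (I' X' : Finset V), I ⊆ I' → X ⊆ X' →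
      2 * I'.card + 4 * X'.card ≤ 2 * I.card + 4 * X.card + 4 →
      OKat G W (Function.update c p P) I' X' p → OKat G W (Function.update c p P) I' X' q →
      OKat G W (Function.update c p P) I' X' x → Sol' G W := by
    intro P I' X' hI hX hc h1 h2 h3
    refine ⟨Function.update c p P, I', X', ?_,
      bd_step' (δ := 4) (w := W.card - m) hb (by omega) hc (by omega) (by omega)⟩
    intro w hw
    by_cases hwp : w = p
    · rw [hwp]; exact h1
    by_cases hwq : w = q
    · rw [hwq]; exact h2
    by_cases hwx : w = x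
    · rw [hwx]; exact h3
    exact key P I' X' hI hX w hw hwp hwq hwx
  have ev : ∀ (P : Bool) (z : V), z ≠ p → Function.update c p P z = c z :=
    fun P z hz => Function.update_of_ne hz _ _
  have ep : ∀ P : Bool, Function.update c p P p = P := fun P => Function.update_self _ _ _
  have cI : ∀ z : V, ∀ J : Finset V, (insert z J).card ≤ J.card + 1 := fun z J => card_insert_le _ _
  have qok : ∀ I' X' : Finset V, OKat G W (Function.update c p (!(c y))) I' X' q := by
    intro I' X'
    refine ok_two (a := p) (b := y) hp hyW hpq.symm hqy ?_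
    rw [ep, ev _ y hyp]; simp
  by_cases h1 : c q = c x
  · by_cases h2 : c x' = !(c y)
    · by_cases h3 : (!(c y)) = c x
      · -- flip
        refine fin (c y) (insert p (insert q I)) X
          ((subset_insert _ _).trans (subset_insert _ _)) (subset_refl _)
          (by have := cI p (insert q I); have := cI q I; omega) ?_ ?_ ?_
        · refine ok_I (a := x) (mem_insert_self _ _) hxW hpx ?_
          rw [ep, ev _ x hxp, ← h3]; simp
        · refine ok_I (a := p) (mem_insert_of_mem (mem_insert_self _ _)) hp hpq.symm ?_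
          rw [ep, ev _ q hqp, h1, ← h3]; simp
        · refine ok_two (a := x') (b := p) hx'W hp hxx' hpx.symm ?_
          rw [ep, ev _ x' hx'p, h2]; simp
      · refine fin (!(c y)) (insert p (insert x I)) X
          ((subset_insert _ _).trans (subset_insert _ _)) (subset_refl _)
          (by have := cI p (insert x I); have := cI x I; omega) ?_ (qok _ _) ?_
        · refine ok_I (a := x) (mem_insert_self _ _) hxW hpx ?_
          rw [ep, ev _ x hxp]; exact fun h => h3 h.symm
        · refine ok_I (a := p) (mem_insert_of_mem (mem_insert_self _ _)) hp hpx.symm ?_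
          rw [ep, ev _ x hxp]; exact h3
    · have xok : ∀ I' X' : Finset V, OKat G W (Function.update c p (!(c y))) I' X' x := by
        intro I' X'
        refine ok_two (a := x') (b := p) hx'W hp hxx' hpx.symm ?_
        rw [ep, ev _ x' hx'p]; exact h2
      by_cases h3 : (!(c y)) = c x
      · refine fin (!(c y)) I (insert p X) (subset_refl _) (subset_insert _ _)
          (by have := cI p X; omega) ?_ (qok _ _) (xok _ _)
        refine ok_X (a := x) (mem_insert_self _ _) hxW hpx ?_
        rw [ep, ev _ x hxp]; exact h3.symm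
      · refine fin (!(c y)) (insert p I) X (subset_insert _ _) (subset_refl _)
          (by have := cI p I; omega) ?_ (qok _ _) (xok _ _)
        refine ok_I (a := x) (mem_insert_self _ _) hxW hpx ?_
        rw [ep, ev _ x hxp]; exact fun h => h3 h.symm
  · have pok : ∀ I' X' : Finset V, OKat G W (Function.update c p (!(c y))) I' X' p := by
      intro I' X'
      refine ok_two (a := q) (b := x) hqW hxW hpq hpx ?_
      rw [ev _ q hqp, ev _ x hxp]; exact h1
    by_cases h2 : c x' = !(c y)
    · by_cases h3 : (!(c y)) = c x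
      · refine fin (!(c y)) I (insert x X) (subset_refl _) (subset_insert _ _)
          (by have := cI x X; omega) (pok _ _) (qok _ _) ?_
        refine ok_X (a := p) (mem_insert_self _ _) hp hpx.symm ?_
        rw [ep, ev _ x hxp]; exact h3
      · refine fin (!(c y)) (insert x I) X (subset_insert _ _) (subset_refl _)
          (by have := cI x I; omega) (pok _ _) (qok _ _) ?_
        refine ok_I (a := p) (mem_insert_self _ _) hp hpx.symm ?_
        rw [ep, ev _ x hxp]; exact h3
    · refine fin (!(c y)) I X (subset_refl _) (subset_refl _) (by omega) (pok _ _) (qok _ _) ?_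
      refine ok_two (a := x') (b := p) hx'W hp hxx' hpx.symm ?_
      rw [ep, ev _ x' hx'p]; exact h2

end H13.TD2
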