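import Pool.Agent.H84.MC.M2

/-! Graphs of every order `n ≥ 81` for which the bound is almost attained. -/

namespace H13.TD2.Every

open Pool.Agent.H84.MC

/-- the edges: ordered pairs of distinct elements, a complete graph on the first `s` vertices, and
`t` further edges between the first two vertices -/
abbrev E3 (m s t : ℕ) := {p : Fin m × Fin m // p.1 ≠ p.2} ⊕
  ({p : Fin s × Fin s // p.1 < p.2} ⊕ Fin t)

def fa {m s t : ℕ} (hm : 3 ≤ m) (hs : s ≤ m) : E3 m s t → Fin m :=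
  Sum.elim (fun p => p.1.1) (Sum.elim (fun p => Fin.castLE hs p.1.1) (fun _ => ⟨0, by omega⟩))

def fb {m s t : ℕ} (hm : 3 ≤ m) (hs : s ≤ m) : E3 m s t → Fin m :=
  Sum.elim (fun p => p.1.2) (Sum.elim (fun p => Fin.castLE hs p.1.2) (fun _ => ⟨1, by omega⟩))

variable {m s t : ℕ} (hm : 3 ≤ m) (hs : s ≤ m)

theorem good3 : Good (fa hm hs : E3 m s t → Fin m) (fb hm hs) where
  ne := by
    rintro (p | p | j)
    · exact p.2
    · intro h
      have h1 : p.1.1.val = p.1.2.val := by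
        have h0 := congrArg Fin.val h
        exact h0
      have h2 : p.1.1.val < p.1.2.val := p.2
      omega
    · intro h
      have := congrArg Fin.val h
      simp [fa, fb] at this
  par := by
    rintro (⟨⟨x, y⟩, h⟩ | p | j)
    · refine ⟨Sum.inl ⟨(y, x), fun h' => h h'.symm⟩, ?_, ?_⟩
      · intro h'
        have := congrArg Subtype.val (Sum.inl_injective h')
        exact h (congrArg Prod.snd this)
      · exact Sym2.eq_swap
    · refine ⟨Sum.inl ⟨(Fin.castLE hs p.1.1, Fin.castLE hs p.1.2), ?_⟩, by simp, rfl⟩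
      intro h
      have h1 : p.1.1.val = p.1.2.val := by
        have h0 := congrArg Fin.val h
        exact h0
      have h2 : p.1.1.val < p.1.2.val := p.2
      omega
    · refine ⟨Sum.inl ⟨(⟨0, by omega⟩, ⟨1, by omega⟩), ?_⟩, by simp, rfl⟩
      intro h
      have := congrArg Fin.val h
      simp at this
  cov := by
    intro x
    obtain ⟨y, hy⟩ : ∃ y : Fin m, x ≠ y := by
      by_cases h0 : x.val = 0
      · exact ⟨(⟨1, by omega⟩ : Fin m), fun h => by rw [h] at h0; simp at h0⟩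
      · exact ⟨(⟨0, by omega⟩ : Fin m), fun h => by rw [h] at h0; simp at h0⟩
    exact ⟨Sum.inl ⟨(x, y), hy⟩, Or.inl rfl⟩

theorem reach3 (x y : Fin m) :
    (Sd (fa hm hs : E3 m s t → Fin m) (fb hm hs)).Reachable (Sum.inl x) (Sum.inl y) := by
  by_cases h : x = y
  · rw [h]
  · exact (adj_le (a := fa hm hs) (b := fb hm hs) (e := (Sum.inl ⟨(x, y), h⟩ : E3 m s t))
      (Or.inl rfl)).reachable.trans (adj_re (a := fa hm hs) (b := fb hm hs)
      (e := (Sum.inl ⟨(x, y), h⟩ : E3 m s t)) (Or.inr rfl)).reachable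

theorem conn3 : (Sd (fa hm hs : E3 m s t → Fin m) (fb hm hs)).Connected := by
  have h0 : ∀ v : Fin m ⊕ E3 m s t, ∃ x : Fin m,
      (Sd (fa hm hs : E3 m s t → Fin m) (fb hm hs)).Reachable v (Sum.inl x) := by
    rintro (x | e)
    · exact ⟨x, SimpleGraph.Reachable.refl _⟩
    · exact ⟨fa hm hs e, (adj_re (Or.inl rfl)).reachable⟩
  have hp : (Sd (fa hm hs : E3 m s t → Fin m) (fb hm hs)).Preconnected := by
    intro u v
    obtain ⟨x, hx⟩ := h0 u
    obtain ⟨y, hy⟩ := h0 v
    exact (hx.trans (reach3 hm hs x y)).trans hy.symm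
  have : Nonempty (Fin m ⊕ E3 m s t) := ⟨Sum.inl ⟨0, by omega⟩⟩
  exact ⟨hp⟩

theorem card_lt_pairs (s : ℕ) :
    2 * Fintype.card {p : Fin s × Fin s // p.1 < p.2} = s * (s - 1) := by
  have h1 : Fintype.card {p : Fin s × Fin s // p.1 < p.2} =
      Fintype.card {p : Fin s × Fin s // p.2 < p.1} :=
    Fintype.card_congr ⟨fun p => ⟨(p.1.2, p.1.1), p.2⟩, fun p => ⟨(p.1.2, p.1.1), p.2⟩,
      fun p => rfl, fun p => rfl⟩
  rw [← card_ne_pairs s, two_mul]
  nth_rw 2 [h1]
  rw [← Fintype.card_sum]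
  refine Fintype.card_congr (Equiv.ofBijective (fun x => Sum.elim
    (fun p : {p : Fin s × Fin s // p.1 < p.2} => (⟨p.1, ne_of_lt p.2⟩ :
      {p : Fin s × Fin s // p.1 ≠ p.2}))
    (fun p : {p : Fin s × Fin s // p.2 < p.1} => ⟨p.1, ne_of_gt p.2⟩) x) ⟨?_, ?_⟩)
  · rintro (p | p) (q | q) h
    · have := congrArg Subtype.val h
      exact congrArg _ (Subtype.ext this)
    · have h1 := congrArg Subtype.val h
      have h2 : p.1 = q.1 := h1
      have h3 := p.2
      rw [h2] at h3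
      exact absurd q.2 (not_lt_of_gt h3)
    · have h1 := congrArg Subtype.val h
      have h2 : p.1 = q.1 := h1
      have h3 := p.2
      rw [h2] at h3
      exact absurd q.2 (not_lt_of_gt h3)
    · have := congrArg Subtype.val h
      exact congrArg _ (Subtype.ext this)
  · rintro ⟨p, hp⟩
    rcases lt_or_gt_of_ne hp with h | h
    · exact ⟨Sum.inl ⟨p, h⟩, rfl⟩
    · exact ⟨Sum.inr ⟨p, h⟩, rfl⟩

/-- number of pairs `i < j` on the same side -/
theorem count_lt (s : ℕ) (c : Fin s → Bool) :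
    s * s ≤ 4 * (Finset.univ.filter
      fun p : {p : Fin s × Fin s // p.1 < p.2} => c p.1.1 = c p.1.2).card + 2 * s := by
  classical
  set P := (Finset.univ : Finset (Fin s)).filter (fun i => c i = true) with hP
  set Q := (Finset.univ : Finset (Fin s)).filter (fun i => ¬ c i = true) with hQ
  have hsum : P.card + Q.card = s := by
    have := Finset.card_filter_add_card_filter_not (s := (Finset.univ : Finset (Fin s)))
      (fun i => c i = true)
    rw [Finset.card_univ, Fintype.card_fin] at this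
    exact this
  set F := (Finset.univ.filter
      fun p : {p : Fin s × Fin s // p.1 < p.2} => c p.1.1 = c p.1.2) with hF
  have hsub : P.offDiag ∪ Q.offDiag ⊆ (F.image fun p => p.1) ∪ (F.image fun p => p.1.swap) := by
    intro p hp
    rw [Finset.mem_union, Finset.mem_offDiag, Finset.mem_offDiag] at hp
    have hcc : c p.1 = c p.2 ∧ p.1 ≠ p.2 := by
      rcases hp with ⟨h1, h2, h3⟩ | ⟨h1, h2, h3⟩
      · rw [hP, Finset.mem_filter] at h1 h2
        exact ⟨h1.2.trans h2.2.symm, h3⟩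
      · rw [hQ, Finset.mem_filter] at h1 h2
        rw [Bool.not_eq_true] at h1 h2
        exact ⟨h1.2.trans h2.2.symm, h3⟩
    rw [Finset.mem_union, Finset.mem_image, Finset.mem_image]
    rcases lt_or_gt_of_ne hcc.2 with h | h
    · exact Or.inl ⟨⟨p, h⟩, Finset.mem_filter.2 ⟨Finset.mem_univ _, hcc.1⟩, rfl⟩
    · exact Or.inr ⟨⟨p.swap, h⟩, Finset.mem_filter.2 ⟨Finset.mem_univ _, hcc.1.symm⟩,
        Prod.swap_swap p⟩
  have hdis : Disjoint P.offDiag Q.offDiag := by
    rw [Finset.disjoint_left]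
    intro p h1 h2
    rw [Finset.mem_offDiag] at h1 h2
    have h3 := h1.1
    have h4 := h2.1
    rw [hP, Finset.mem_filter] at h3
    rw [hQ, Finset.mem_filter] at h4
    exact h4.2 h3.2
  have h1 := Finset.card_le_card hsub
  have h2 := Finset.card_union_le (F.image fun p => p.1) (F.image fun p => p.1.swap)
  have h3 : (F.image fun p => p.1).card ≤ F.card := Finset.card_image_le
  have h4 : (F.image fun p => p.1.swap).card ≤ F.card := Finset.card_image_le
  rw [Finset.card_union_of_disjoint hdis, Finset.offDiag_card, Finset.offDiag_card] at h1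
  have h5 : P.card * P.card - P.card + (Q.card * Q.card - Q.card) ≤ 2 * F.card := by omega
  have h6 : P.card ≤ P.card * P.card := Nat.le_mul_self _
  have h7 : Q.card ≤ Q.card * Q.card := Nat.le_mul_self _
  have h8 : P.card * P.card + Q.card * Q.card ≤ 2 * F.card + s := by omega
  have h9 : (P.card : ℤ) + Q.card = s := by exact_mod_cast hsum
  have h10 : (s : ℤ) * s = ((P.card : ℤ) + Q.card) * ((P.card : ℤ) + Q.card) := by rw [h9]
  zify at h8 ⊢
  nlinarith [sq_nonneg ((P.card : ℤ) - Q.card)]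

theorem low3 {k : ℕ} (hk : 3 ≤ 2 * k + 1) (hs : s ≤ 2 * k + 1) (f : Fin (2 * k + 1) → Bool) :
    8 * k ^ 2 + s * s ≤
      4 * mono (fa hk hs : E3 (2 * k + 1) s t → Fin (2 * k + 1)) (fb hk hs) f + 2 * s := by
  classical
  have hsub : ((Finset.univ.filter
      fun p : {p : Fin (2 * k + 1) × Fin (2 * k + 1) // p.1 ≠ p.2} => f p.1.1 = f p.1.2).map
      Function.Embedding.inl) ∪ (((Finset.univ.filter
      fun p : {p : Fin s × Fin s // p.1 < p.2} =>
        f (Fin.castLE hs p.1.1) = f (Fin.castLE hs p.1.2)).map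
      Function.Embedding.inl).map Function.Embedding.inr) ⊆
      (Finset.univ.filter fun e : E3 (2 * k + 1) s t => f (fa hk hs e) = f (fb hk hs e)) := by
    intro e he
    rw [Finset.mem_union, Finset.mem_map, Finset.mem_map] at he
    rw [Finset.mem_filter]
    refine ⟨Finset.mem_univ _, ?_⟩
    rcases he with ⟨p, hp, rfl⟩ | ⟨p, hp, rfl⟩
    · exact (Finset.mem_filter.1 hp).2
    · obtain ⟨q, hq, rfl⟩ := Finset.mem_map.1 hp
      exact (Finset.mem_filter.1 hq).2
  have h1 := Finset.card_le_card hsub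
  rw [Finset.card_union_of_disjoint, Finset.card_map, Finset.card_map, Finset.card_map] at h1
  · have h2 := count_pairs k f
    have h3 := count_lt s (fun i => f (Fin.castLE hs i))
    have h4 : (Finset.univ.filter fun e : E3 (2 * k + 1) s t =>
      f (fa hk hs e) = f (fb hk hs e)).card =
      mono (fa hk hs : E3 (2 * k + 1) s t → Fin (2 * k + 1)) (fb hk hs) f := rfl
    rw [h4] at h1
    omega
  · rw [Finset.disjoint_left]
    intro e h1 h2
    obtain ⟨p, _, rfl⟩ := Finset.mem_map.1 h1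
    obtain ⟨q, _, h3⟩ := Finset.mem_map.1 h2
    exact Sum.inr_ne_inl h3

/-- For every `n ≥ 81` there is a connected graph with `n` vertices for which the bound is almost
attained. -/
theorem every (n : ℕ) (hn : 81 ≤ n) :
    ∃ (V : Type) (_ : Fintype V) (G : SimpleGraph V), Fintype.card V = n ∧ G.Connected ∧
      (∀ v, 2 ≤ (G.neighborSet v).ncard) ∧
      ((n : ℝ) - 2 * Real.sqrt n) / 4 - 9 / 8 * Real.sqrt (Real.sqrt n) ≤ (td G : ℝ) := by
  -- the odd number `m = 2 k + 1`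
  obtain ⟨k, hk1, hk2⟩ : ∃ k : ℕ, (2 * k + 1) ^ 2 ≤ n ∧ n < (2 * k + 3) ^ 2 := by
    have hP : ∃ k : ℕ, n < (2 * k + 3) ^ 2 := ⟨n, by nlinarith⟩
    refine ⟨Nat.find hP, ?_, Nat.find_spec hP⟩
    rcases Nat.eq_zero_or_pos (Nat.find hP) with h0 | h0
    · rw [h0]; omega
    · have := Nat.find_min hP (m := Nat.find hP - 1) (by omega)
      push Not at this
      have h2 : 2 * (Nat.find hP - 1) + 3 = 2 * Nat.find hP + 1 := by omega
      rwa [h2] at this
  have hk4 : 4 ≤ k := by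
    by_contra hcon
    push Not at hcon
    have : (2 * k + 3) ^ 2 ≤ 81 := by
      have : 2 * k + 3 ≤ 9 := by omega
      calc (2 * k + 3) ^ 2 ≤ 9 ^ 2 := Nat.pow_le_pow_left this 2
        _ = 81 := by norm_num
    omega
  obtain ⟨r, hr⟩ : ∃ r, n = (2 * k + 1) ^ 2 + r := ⟨n - (2 * k + 1) ^ 2, by omega⟩
  have hr2 : r ≤ 8 * k + 7 := by nlinarith
  -- the clique
  obtain ⟨s, hs1, hs2⟩ : ∃ s : ℕ, s * (s - 1) ≤ 2 * r ∧ 2 * r < (s + 1) * s := by
    have hP : ∃ s : ℕ, 2 * r < (s + 1) * s := ⟨2 * r + 1, by nlinarith⟩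
    refine ⟨Nat.find hP, ?_, Nat.find_spec hP⟩
    rcases Nat.eq_zero_or_pos (Nat.find hP) with h0 | h0
    · rw [h0]; simp
    · have := Nat.find_min hP (m := Nat.find hP - 1) (by omega)
      push Not at this
      have h2 : Nat.find hP - 1 + 1 = Nat.find hP := by omega
      rwa [h2] at this
  have hs0 : 1 ≤ s := by
    rcases Nat.eq_zero_or_pos s with h | h
    · rw [h] at hs2; simp at hs2
    · exact h
  obtain ⟨s', rfl⟩ : ∃ s', s = s' + 1 := ⟨s - 1, by omega⟩
  rw [Nat.add_sub_cancel] at hs1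
  have hsm : s' + 1 ≤ 2 * k + 1 := by
    by_contra hcon
    push Not at hcon
    have h1 : 2 * k + 1 ≤ s' := by omega
    have h2 : (2 * k + 2) * (2 * k + 1) ≤ (s' + 1) * s' := Nat.mul_le_mul (by omega) h1
    nlinarith
  have hcard0 := card_lt_pairs (s' + 1)
  rw [Nat.add_sub_cancel] at hcard0
  obtain ⟨e, he⟩ : ∃ e, e = Fintype.card {p : Fin (s' + 1) × Fin (s' + 1) // p.1 < p.2} := ⟨_, rfl⟩
  rw [← he] at hcard0
  obtain ⟨t, ht⟩ : ∃ t, r = e + t := ⟨r - e, by omega⟩
  have ht2 : t ≤ s' := by nlinarith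
  have hm : 3 ≤ 2 * k + 1 := by omega
  have hG := good3 (t := t) hm hsm
  have hc : Fintype.card (Fin (2 * k + 1) ⊕ E3 (2 * k + 1) (s' + 1) t) = n := by
    rw [Fintype.card_sum, Fintype.card_sum, Fintype.card_sum, card_ne_pairs, ← he,
      Fintype.card_fin, Fintype.card_fin, Nat.add_sub_cancel, hr, ht]
    ring
  refine ⟨_, inferInstance, Sd (fa hm hsm : E3 (2 * k + 1) (s' + 1) t → Fin (2 * k + 1))
    (fb hm hsm), hc, conn3 hm hsm, min_deg hG, ?_⟩
  have htd := td_eq hG
  obtain ⟨f, hf⟩ := mm_mem (a := (fa hm hsm : E3 (2 * k + 1) (s' + 1) t → Fin (2 * k + 1)))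
    (b := fb hm hsm)
  have hlow := low3 (t := t) hm hsm f
  rw [hf] at hlow
  generalize mm (fa hm hsm : E3 (2 * k + 1) (s' + 1) t → Fin (2 * k + 1)) (fb hm hsm) = M at *
  generalize td (Sd (fa hm hsm : E3 (2 * k + 1) (s' + 1) t → Fin (2 * k + 1)) (fb hm hsm)) = T at *
  have hT : M ≤ 2 * T := by omega
  have h1 : 8 * (k : ℝ) ^ 2 + ((s' : ℝ) + 1) * (s' + 1) ≤ 8 * T + 2 * (s' + 1) := by
    have : 8 * k ^ 2 + (s' + 1) * (s' + 1) ≤ 8 * T + 2 * (s' + 1) := by omega
    exact_mod_cast this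
  have h2 : (n : ℝ) = (2 * k + 1) ^ 2 + (e + t) := by
    rw [hr, ht]; push_cast; ring
  have h3 : (2 : ℝ) * e = (s' + 1) * s' := by exact_mod_cast hcard0
  have h4 : (t : ℝ) ≤ s' := by exact_mod_cast ht2
  have h5 : (2 * (k : ℝ) + 1) ≤ Real.sqrt n := by
    apply Real.le_sqrt_of_sq_le
    have : ((2 * k + 1) ^ 2 : ℕ) ≤ n := hk1
    exact_mod_cast this
  have h6 : ((s' : ℝ) + 1) * s' ≤ 2 * (8 * k + 7) := by
    have : (s' + 1) * s' ≤ 2 * (8 * k + 7) := hs1.trans (by omega)
    exact_mod_cast this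
  obtain ⟨q, hq⟩ : ∃ q, q = Real.sqrt (Real.sqrt n) := ⟨_, rfl⟩
  have hq0 : 0 ≤ q := hq ▸ Real.sqrt_nonneg _
  have hq2 : q ^ 2 = Real.sqrt n := by rw [hq]; exact Real.sq_sqrt (Real.sqrt_nonneg _)
  have hk4' : (4 : ℝ) ≤ k := by exact_mod_cast hk4
  have hq1 : 3 ≤ q := by nlinarith
  rw [← hq]
  have hs' : (s' : ℝ) ≤ 3 * q + 1 / 3 := by
    by_contra hcon
    push Not at hcon
    nlinarith
  rw [← hq2] at h5 ⊢
  nlinarith
end H13.TD2.Every
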