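import Pool.Agent.H13.TD2.Ind2
import Pool.Agent.H84.MC.Conv
import Pool.Agent.H9.TD.Conv2

namespace H13.TD2

open Finset Classical H13.TD Pool.Agent.H84.MC

variable {V : Type} [Fintype V]

theorem upper (G : SimpleGraph V) (hn : 4 ≤ Fintype.card V)
    (hd : ∀ v, 2 ≤ (G.neighborSet v).ncard) :
    td G ≤ max ⌈(Real.sqrt (Fintype.card V) - 1) ^ 2 / 4⌉₊ (Fintype.card V / 5 + 1) := by
  have hcl : Closed G (univ : Finset V) := by
    intro v _
    refine (hd v).trans ?_
    rw [← Set.ncard_coe_finset]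
    apply Set.ncard_le_ncard
    · intro w hw
      simpa [nb] using hw
    · exact Set.toFinite _
  have hs := Real.sq_sqrt (show (0 : ℝ) ≤ Fintype.card V by positivity)
  have hs0 := Real.sqrt_nonneg (Fintype.card V : ℝ)
  obtain ⟨x, hx⟩ : ∃ x : ℝ, x = (Real.sqrt (Fintype.card V) - 1) ^ 2 / 4 := ⟨_, rfl⟩
  have hx4 : 4 * x = (Fintype.card V : ℝ) - 2 * Real.sqrt (Fintype.card V) + 1 := by
    rw [hx]; nlinarith
  rw [← hx]
  have fin : (td G : ℝ) < x + 1 → td G ≤ ⌈x⌉₊ := by
    intro h
    by_contra hcon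
    push Not at hcon
    have h1 : (⌈x⌉₊ : ℝ) + 1 ≤ td G := by exact_mod_cast hcon
    have h2 := Nat.le_ceil x
    linarith
  rcases main2 _ univ rfl G hcl with ⟨c, I, X, hok, hb⟩ | ⟨c, I, h1, h2, h3, h4⟩
  · rw [card_univ] at hb
    have hXc : X.card < Fintype.card V := by
      rcases bd_final' hb with h | h
      · have : (4 : ℝ) * X.card ≤ ((2 * I.card + 4 * X.card : ℕ) : ℝ) := by
          push_cast
          have : (0 : ℝ) ≤ I.card := by positivity
          linarith
        have hn' : (4 : ℝ) ≤ Fintype.card V := by exact_mod_cast hn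
        have h1 : (1 : ℝ) ≤ Real.sqrt (Fintype.card V) := by
          rw [Real.one_le_sqrt]; linarith
        have : (X.card : ℝ) < Fintype.card V := by linarith
        exact_mod_cast this
      · omega
    have hcv : 4 * td G ≤ 2 * I.card + 4 * X.card + 4 := by
      refine td_conv G hn hd c I X ?_ ?_ hXc
      · intro v
        rcases (hok v (mem_univ _)).1 with h | ⟨u, -, h1, h2⟩
        · exact Or.inl h
        · exact Or.inr ⟨u, h1, h2⟩
      · intro v
        rcases (hok v (mem_univ _)).2 with h | ⟨u, -, h1, h2⟩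
        · exact Or.inl h
        · exact Or.inr ⟨u, h1, h2⟩
    rcases bd_final' hb with h | h
    · refine le_max_of_le_left (fin ?_)
      have : ((4 * td G : ℕ) : ℝ) ≤ ((2 * I.card + 4 * X.card + 4 : ℕ) : ℝ) := by exact_mod_cast hcv
      push_cast at this h
      linarith
    · refine le_max_of_le_right ?_
      omega
  · rw [card_univ] at h4
    have hcv : 2 * td G ≤ I.card + 1 := by
      refine Pool.Agent.H9.TD.conv2 G c I ?_ ?_ ?_
      · intro v hv
        obtain ⟨⟨u, -, a1, a2, a3⟩, w, -, b1, b2, b3⟩ := h1 v (mem_univ _) hv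
        exact ⟨⟨u, a1, a2, a3⟩, w, b1, b2, b3⟩
      · intro v hv
        obtain ⟨u, -, a1, a2, a3⟩ := h2 v hv
        exact ⟨u, a1, a2, a3⟩
      · obtain ⟨v, -, hv⟩ := h3
        exact ⟨v, hv⟩
    rcases h4 with ⟨t, ht, h⟩ | h
    · refine le_max_of_le_left (fin ?_)
      have h5 := bd_final (Or.inl ⟨t, ht, h⟩ : Bd (2 * I.card) (Fintype.card V))
      have ht0 : 0 < t := by linarith
      have h6 : 2 * Real.sqrt (Fintype.card V) ≤ Fintype.card V / t + t := by
        rw [← sub_nonneg]
        have : (Fintype.card V : ℝ) / t + t - 2 * Real.sqrt (Fintype.card V) =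
            (Real.sqrt (Fintype.card V) - t) ^ 2 / t := by
          field_simp
          nlinarith
        rw [this]
        positivity
      have : ((2 * td G : ℕ) : ℝ) ≤ ((I.card + 1 : ℕ) : ℝ) := by exact_mod_cast hcv
      push_cast at this h
      linarith
    · refine le_max_of_le_right ?_
      omega

theorem upper90 (G : SimpleGraph V) (hn : 90 ≤ Fintype.card V)
    (hd : ∀ v, 2 ≤ (G.neighborSet v).ncard) :
    td G ≤ ⌈(Real.sqrt (Fintype.card V) - 1) ^ 2 / 4⌉₊ := by
  refine (upper G (by omega) hd).trans (max_le le_rfl ?_)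
  have hn' : (90 : ℝ) ≤ Fintype.card V := by exact_mod_cast hn
  have hs := Real.sq_sqrt (show (0 : ℝ) ≤ Fintype.card V by positivity)
  have hs0 := Real.sqrt_nonneg (Fintype.card V : ℝ)
  have h9 : (9.486 : ℝ) ≤ Real.sqrt (Fintype.card V) := by
    apply Real.le_sqrt_of_sq_le
    norm_num
    linarith
  have hlt : ((Fintype.card V / 5 : ℕ) : ℝ) < (Real.sqrt (Fintype.card V) - 1) ^ 2 / 4 := by
    refine lt_of_le_of_lt Nat.cast_div_le ?_
    push_cast
    nlinarith
  have h2 := hlt.trans_le (Nat.le_ceil _)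
  have h3 : Fintype.card V / 5 < ⌈(Real.sqrt (Fintype.card V) - 1) ^ 2 / 4⌉₊ := by
    exact_mod_cast h2
  omega

end H13.TD2
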